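import Mathlib

set_option autoImplicit false

/-!
# The regular conjugate locus need not be dense in sub-Riemannian geometry
-/

open Set Filter Topology

namespace Pool.Agent.Results.MP_f98bae_gt.NotDense

/-- The iterated Lie brackets of the vector fields `X₁, …, X_k` on `ℝⁿ`. -/
inductive IsBracket {n k : ℕ} (X : Fin k → (Fin n → ℝ) → (Fin n → ℝ)) :
    ((Fin n → ℝ) → (Fin n → ℝ)) → Prop
  | frame (i : Fin k) : IsBracket X (X i)
  | bracket (V W : (Fin n → ℝ) → (Fin n → ℝ)) (hV : IsBracket X V) (hW : IsBracket X W) :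
      IsBracket X (VectorField.lieBracket ℝ V W)

/-- `X₁, …, X_k` is a global orthonormal frame of a sub-Riemannian structure on the connected
manifold `ℝⁿ`: the fields are smooth and pointwise linearly independent (they span the
distribution `D`, and the fibrewise inner product is the one making them orthonormal), and `D` is
bracket-generating. -/
structure IsSubRiemannianFrame {n k : ℕ} (X : Fin k → (Fin n → ℝ) → (Fin n → ℝ)) : Prop where
  smooth : ∀ i, ContDiff ℝ (⊤ : ℕ∞) (X i)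
  independent : ∀ x, LinearIndependent ℝ (fun i => X i x)
  generating : ∀ x, Submodule.span ℝ {v | ∃ V, IsBracket X V ∧ v = V x} = ⊤

/-- The sub-Riemannian Hamiltonian `H(x, p) = ½ ∑ ⟨p, X_i(x)⟩²`. -/
noncomputable def Ham {n k : ℕ} (X : Fin k → (Fin n → ℝ) → (Fin n → ℝ)) (x p : Fin n → ℝ) : ℝ :=
  1 / 2 * ∑ i, (p ⬝ᵥ X i x) ^ 2

/-- `(x(s), p(s))`, `0 ≤ s ≤ 1`, solves Hamilton's equations
`x_j' = ∂H/∂p_j`, `p_j' = - ∂H/∂x_j`. -/
def IsHamiltonian {n k : ℕ} (X : Fin k → (Fin n → ℝ) → (Fin n → ℝ))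
    (x p : ℝ → (Fin n → ℝ)) : Prop :=
  ∀ s ∈ Icc (0 : ℝ) 1, ∀ j,
    HasDerivWithinAt (fun s => x s j)
      (fderiv ℝ (fun p' => Ham X (x s) p') (p s) (Pi.single j 1)) (Icc 0 1) s ∧
    HasDerivWithinAt (fun s => p s j)
      (- fderiv ℝ (fun x' => Ham X x' (p s)) (x s) (Pi.single j 1)) (Icc 0 1) s

/-- `y` is the time-one endpoint of the normal geodesic starting at `q` with initial covector
`l`. -/
def IsExp {n k : ℕ} (X : Fin k → (Fin n → ℝ) → (Fin n → ℝ)) (q l y : Fin n → ℝ) : Prop :=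
  ∃ x p : ℝ → (Fin n → ℝ), IsHamiltonian X x p ∧ x 0 = q ∧ p 0 = l ∧ x 1 = y

open Classical in
/-- The sub-Riemannian exponential map `exp_q` (with a junk value outside its domain). -/
noncomputable def expMap {n k : ℕ} (X : Fin k → (Fin n → ℝ) → (Fin n → ℝ)) (q l : Fin n → ℝ) :
    Fin n → ℝ :=
  if h : ∃ y, IsExp X q l y then h.choose else 0

/-- The conjugate locus: covectors in the domain of `exp_q` with `H ≠ 0` which are critical points
of `exp_q`. -/
def Conj {n k : ℕ} (X : Fin k → (Fin n → ℝ) → (Fin n → ℝ)) (q : Fin n → ℝ) :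
    Set (Fin n → ℝ) :=
  {l | (∃ y, IsExp X q l y) ∧ Ham X q l ≠ 0 ∧ ¬ Function.Bijective (fderiv ℝ (expMap X q) l)}

/-- The regular conjugate locus: the conjugate covectors with a neighbourhood `U` such that every
straight line through `0` meets `Conj ∩ U` in at most one point. -/
def Regular {n k : ℕ} (X : Fin k → (Fin n → ℝ) → (Fin n → ℝ)) (q : Fin n → ℝ) :
    Set (Fin n → ℝ) :=
  {l | l ∈ Conj X q ∧ ∃ U ∈ 𝓝 l, ∀ v : Fin n → ℝ, v ≠ 0 →
    {m | m ∈ Conj X q ∩ U ∧ ∃ s : ℝ, m = s • v}.Subsingleton}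

/-! ### The example: the product of the Heisenberg group and a line -/

/-- The frame `∂_x - (y/2) ∂_z, ∂_y + (x/2) ∂_z, ∂_t`. -/
noncomputable def XX : Fin 3 → (Fin 4 → ℝ) → (Fin 4 → ℝ) :=
  ![fun x => ![1, 0, -(x 1) / 2, 0], fun x => ![0, 1, x 0 / 2, 0], fun _ => ![0, 0, 0, 1]]

lemma Ham_eq (x p : Fin 4 → ℝ) : Ham XX x p =
    1 / 2 * ((p 0 - x 1 * p 2 / 2) ^ 2 + (p 1 + x 0 * p 2 / 2) ^ 2 + p 3 ^ 2) := by
  unfold Ham XX
  rw [Fin.sum_univ_three]
  simp [dotProduct, Fin.sum_univ_four]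
  ring

lemma fderiv_eq {F : Type*} [NormedAddCommGroup F] [NormedSpace ℝ F]
    {f : (Fin 4 → ℝ) → F} {a v : Fin 4 → ℝ} {c : F} (hf : DifferentiableAt ℝ f a)
    (h : HasDerivAt (fun s : ℝ => f (a + s • v)) c 0) : fderiv ℝ f a v = c := by
  have h1 : HasDerivAt (fun s : ℝ => a + s • v) v 0 := by
    have := ((hasDerivAt_id (0 : ℝ)).smul_const v).const_add a
    simpa using this
  have h2 : HasFDerivAt f (fderiv ℝ f a) (a + (0 : ℝ) • v) := by
    simpa using hf.hasFDerivAt
  have h3 := h2.comp_hasDerivAt (0 : ℝ) h1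
  exact h3.unique h

lemma quad (u v r α β γ : ℝ) :
    HasDerivAt (fun s : ℝ => 1 / 2 * ((u + s * α) ^ 2 + (v + s * β) ^ 2 + (r + s * γ) ^ 2))
      (u * α + v * β + r * γ) 0 := by
  have h : ∀ a b : ℝ, HasDerivAt (fun s : ℝ => (a + s * b) ^ 2) (2 * a * b) 0 := by
    intro a b
    have h1 : HasDerivAt (fun s : ℝ => a + s * b) b 0 := by
      simpa using ((hasDerivAt_id (0 : ℝ)).mul_const b).const_add a
    refine (h1.pow 2).congr_deriv ?_
    simp
  refine ((((h u α).add (h v β)).add (h r γ)).const_mul (1 / 2)).congr_deriv ?_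
  ring

lemma dHp (x p : Fin 4 → ℝ) (j : Fin 4) :
    fderiv ℝ (fun p' => Ham XX x p') p (Pi.single j 1) =
      ![p 0 - x 1 * p 2 / 2, p 1 + x 0 * p 2 / 2,
        (x 0 * (p 1 + x 0 * p 2 / 2) - x 1 * (p 0 - x 1 * p 2 / 2)) / 2, p 3] j := by
  have hd : DifferentiableAt ℝ (fun p' => Ham XX x p') p := by
    simp only [Ham_eq]
    fun_prop
  have key : ∀ e : Fin 4 → ℝ, fderiv ℝ (fun p' => Ham XX x p') p e =
      (p 0 - x 1 * p 2 / 2) * (e 0 - x 1 * e 2 / 2) + (p 1 + x 0 * p 2 / 2) * (e 1 + x 0 * e 2 / 2)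
        + p 3 * e 3 := by
    intro e
    apply fderiv_eq hd
    have := quad (p 0 - x 1 * p 2 / 2) (p 1 + x 0 * p 2 / 2) (p 3) (e 0 - x 1 * e 2 / 2)
      (e 1 + x 0 * e 2 / 2) (e 3)
    refine this.congr_of_eventuallyEq (Filter.Eventually.of_forall fun s => ?_)
    simp only [Ham_eq, Pi.add_apply, Pi.smul_apply, smul_eq_mul]
    ring
  rw [key]
  fin_cases j <;> simp <;> ring

lemma dHx (x p : Fin 4 → ℝ) (j : Fin 4) :
    fderiv ℝ (fun x' => Ham XX x' p) x (Pi.single j 1) =
      ![(p 1 + x 0 * p 2 / 2) * p 2 / 2, -((p 0 - x 1 * p 2 / 2) * p 2 / 2), 0, 0] j := by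
  have hd : DifferentiableAt ℝ (fun x' => Ham XX x' p) x := by
    simp only [Ham_eq]
    fun_prop
  have key : ∀ e : Fin 4 → ℝ, fderiv ℝ (fun x' => Ham XX x' p) x e =
      (p 0 - x 1 * p 2 / 2) * (- e 1 * p 2 / 2) + (p 1 + x 0 * p 2 / 2) * (e 0 * p 2 / 2)
        + p 3 * 0 := by
    intro e
    apply fderiv_eq hd
    have := quad (p 0 - x 1 * p 2 / 2) (p 1 + x 0 * p 2 / 2) (p 3) (- e 1 * p 2 / 2)
      (e 0 * p 2 / 2) 0
    refine this.congr_of_eventuallyEq (Filter.Eventually.of_forall fun s => ?_)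
    simp only [Ham_eq, Pi.add_apply, Pi.smul_apply, smul_eq_mul]
    ring
  rw [key]
  fin_cases j <;> simp <;> ring

/-! ### The frame is sub-Riemannian -/

lemma lieBracket_XX (x : Fin 4 → ℝ) :
    VectorField.lieBracket ℝ (XX 0) (XX 1) x = ![0, 0, 1, 0] := by
  unfold VectorField.lieBracket
  have d0 : DifferentiableAt ℝ (XX 0) x := by
    have : XX 0 = fun x : Fin 4 → ℝ => ![1, 0, -(x 1) / 2, 0] := rfl
    rw [this, differentiableAt_pi]
    intro j
    fin_cases j <;> (simp; try fun_prop)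
  have d1 : DifferentiableAt ℝ (XX 1) x := by
    have : XX 1 = fun x : Fin 4 → ℝ => ![0, 1, x 0 / 2, 0] := rfl
    rw [this, differentiableAt_pi]
    intro j
    fin_cases j <;> (simp; try fun_prop)
  have e0 : fderiv ℝ (XX 0) x (XX 1 x) = ![0, 0, -1 / 2, 0] := by
    apply fderiv_eq d0
    rw [hasDerivAt_pi]
    intro j
    have h1 : HasDerivAt (fun s : ℝ => -(x 1 + s * 1) / 2) (-1 / 2) 0 := by
      have := ((((hasDerivAt_id (0 : ℝ)).mul_const 1).const_add (x 1)).neg).div_const 2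
      simpa using this
    fin_cases j
    · simpa [XX] using hasDerivAt_const (0 : ℝ) (1 : ℝ)
    · simpa [XX] using hasDerivAt_const (0 : ℝ) (0 : ℝ)
    · exact h1
    · simpa [XX] using hasDerivAt_const (0 : ℝ) (0 : ℝ)
  have e1 : fderiv ℝ (XX 1) x (XX 0 x) = ![0, 0, 1 / 2, 0] := by
    apply fderiv_eq d1
    rw [hasDerivAt_pi]
    intro j
    have h1 : HasDerivAt (fun s : ℝ => (x 0 + s * 1) / 2) (1 / 2) 0 := by
      have := (((hasDerivAt_id (0 : ℝ)).mul_const 1).const_add (x 0)).div_const 2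
      simpa using this
    fin_cases j
    · simpa [XX] using hasDerivAt_const (0 : ℝ) (0 : ℝ)
    · simpa [XX] using hasDerivAt_const (0 : ℝ) (1 : ℝ)
    · exact h1
    · simpa [XX] using hasDerivAt_const (0 : ℝ) (0 : ℝ)
  rw [e0, e1]
  ext j
  fin_cases j <;> simp
  norm_num

lemma frame_XX : IsSubRiemannianFrame XX where
  smooth i := by
    fin_cases i
    · show ContDiff ℝ (⊤ : ℕ∞) (fun x : Fin 4 → ℝ => ![1, 0, -(x 1) / 2, 0])
      rw [contDiff_pi]
      intro j
      fin_cases j <;> (simp; try fun_prop)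
    · show ContDiff ℝ (⊤ : ℕ∞) (fun x : Fin 4 → ℝ => ![0, 1, x 0 / 2, 0])
      rw [contDiff_pi]
      intro j
      fin_cases j <;> (simp; try fun_prop)
    · show ContDiff ℝ (⊤ : ℕ∞) (fun _ : Fin 4 → ℝ => ![(0 : ℝ), 0, 0, 1])
      exact contDiff_const
  independent x := by
    rw [Fintype.linearIndependent_iff]
    intro g hg
    rw [Fin.sum_univ_three] at hg
    have h0 := congrFun hg 0
    have h1 := congrFun hg 1
    have h3 := congrFun hg 3
    simp [XX] at h0 h1 h3
    intro i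
    fin_cases i
    · exact h0
    · exact h1
    · exact h3
  generating x := by
    rw [eq_top_iff]
    intro v _
    have m0 : XX 0 x ∈ Submodule.span ℝ {v | ∃ V, IsBracket XX V ∧ v = V x} :=
      Submodule.subset_span ⟨_, IsBracket.frame 0, rfl⟩
    have m1 : XX 1 x ∈ Submodule.span ℝ {v | ∃ V, IsBracket XX V ∧ v = V x} :=
      Submodule.subset_span ⟨_, IsBracket.frame 1, rfl⟩
    have m2 : XX 2 x ∈ Submodule.span ℝ {v | ∃ V, IsBracket XX V ∧ v = V x} :=
      Submodule.subset_span ⟨_, IsBracket.frame 2, rfl⟩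
    have m3 : (![0, 0, 1, 0] : Fin 4 → ℝ) ∈
        Submodule.span ℝ {v | ∃ V, IsBracket XX V ∧ v = V x} :=
      Submodule.subset_span ⟨_, IsBracket.bracket _ _ (IsBracket.frame 0) (IsBracket.frame 1),
        (lieBracket_XX x).symm⟩
    have hv : v = v 0 • XX 0 x + v 1 • XX 1 x + v 3 • XX 2 x +
        (v 2 + v 0 * x 1 / 2 - v 1 * x 0 / 2) • (![0, 0, 1, 0] : Fin 4 → ℝ) := by
      ext j
      fin_cases j <;> simp [XX]
      ring
    rw [hv]
    exact add_mem (add_mem (add_mem (Submodule.smul_mem _ _ m0) (Submodule.smul_mem _ _ m1))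
      (Submodule.smul_mem _ _ m2)) (Submodule.smul_mem _ _ m3)

/-! ### The exponential map -/

/-- The explicit exponential map for nonzero third momentum. -/
noncomputable def E (l : Fin 4 → ℝ) : Fin 4 → ℝ :=
  ![(l 0 * Real.sin (l 2) - l 1 * (1 - Real.cos (l 2))) / l 2,
    (l 0 * (1 - Real.cos (l 2)) + l 1 * Real.sin (l 2)) / l 2,
    (l 0 ^ 2 + l 1 ^ 2) * (l 2 - Real.sin (l 2)) / (2 * l 2 ^ 2),
    l 3]

lemma dsin (w s : ℝ) : HasDerivAt (fun s => Real.sin (w * s)) (w * Real.cos (w * s)) s := by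
  have h1 : HasDerivAt (fun s : ℝ => w * s) w s := by
    simpa using (hasDerivAt_id s).const_mul w
  refine h1.sin.congr_deriv ?_
  ring

lemma dcos (w s : ℝ) : HasDerivAt (fun s => Real.cos (w * s)) (- (w * Real.sin (w * s))) s := by
  have h1 : HasDerivAt (fun s : ℝ => w * s) w s := by
    simpa using (hasDerivAt_id s).const_mul w
  refine h1.cos.congr_deriv ?_
  ring

lemma isExp_E {l : Fin 4 → ℝ} (hw : l 2 ≠ 0) : IsExp XX 0 l (E l) := by
  set a := l 0 with ha
  set b := l 1 with hb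
  set w := l 2 with hwdef
  set c := l 3 with hc
  set x0 : ℝ → ℝ := fun s => (a * Real.sin (w * s) - b * (1 - Real.cos (w * s))) / w with hx0
  set x1 : ℝ → ℝ := fun s => (a * (1 - Real.cos (w * s)) + b * Real.sin (w * s)) / w with hx1
  set x2 : ℝ → ℝ := fun s => (a ^ 2 + b ^ 2) * (w * s - Real.sin (w * s)) / (2 * w ^ 2) with hx2
  set u : ℝ → ℝ := fun s => a * Real.cos (w * s) - b * Real.sin (w * s) with hu
  set v : ℝ → ℝ := fun s => a * Real.sin (w * s) + b * Real.cos (w * s) with hv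
  have d0 : ∀ s, HasDerivAt x0 (u s) s := by
    intro s
    refine ((((dsin w s).const_mul a).sub (((dcos w s).const_sub 1).const_mul b)).div_const
      w).congr_deriv ?_
    simp only [hu]
    field_simp
  have d1 : ∀ s, HasDerivAt x1 (v s) s := by
    intro s
    refine (((((dcos w s).const_sub 1).const_mul a).add ((dsin w s).const_mul b)).div_const
      w).congr_deriv ?_
    simp only [hv]
    field_simp
  have d2 : ∀ s, HasDerivAt x2 ((a ^ 2 + b ^ 2) * (1 - Real.cos (w * s)) / (2 * w)) s := by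
    intro s
    have h1 : HasDerivAt (fun s : ℝ => w * s) w s := by
      simpa using (hasDerivAt_id s).const_mul w
    refine (((h1.sub (dsin w s)).const_mul (a ^ 2 + b ^ 2)).div_const (2 * w ^ 2)).congr_deriv ?_
    field_simp
  have du : ∀ s, HasDerivAt u (- (w * v s)) s := by
    intro s
    refine (((dcos w s).const_mul a).sub ((dsin w s).const_mul b)).congr_deriv ?_
    simp only [hv]
    ring
  have dv : ∀ s, HasDerivAt v (w * u s) s := by
    intro s
    refine (((dsin w s).const_mul a).add ((dcos w s).const_mul b)).congr_deriv ?_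
    simp only [hu]
    ring
  refine ⟨fun s => ![x0 s, x1 s, x2 s, c * s],
    fun s => ![u s + x1 s * w / 2, v s - x0 s * w / 2, w, c], ?_, ?_, ?_, ?_⟩
  · intro s _ j
    rw [dHp, dHx]
    have e0 : u s + x1 s * w / 2 - x1 s * w / 2 = u s := by ring
    have e1 : v s - x0 s * w / 2 + x0 s * w / 2 = v s := by ring
    constructor
    · apply HasDerivAt.hasDerivWithinAt
      fin_cases j
      · show HasDerivAt x0 (u s + x1 s * w / 2 - x1 s * w / 2) s
        rw [e0]; exact d0 s
      · show HasDerivAt x1 (v s - x0 s * w / 2 + x0 s * w / 2) s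
        rw [e1]; exact d1 s
      · show HasDerivAt x2 ((x0 s * (v s - x0 s * w / 2 + x0 s * w / 2) -
          x1 s * (u s + x1 s * w / 2 - x1 s * w / 2)) / 2) s
        rw [e0, e1]
        refine (d2 s).congr_deriv ?_
        have hcs := Real.sin_sq_add_cos_sq (w * s)
        simp only [hx0, hx1, hu, hv]
        field_simp
        linear_combination (-(a ^ 2 + b ^ 2)) * hcs
      · show HasDerivAt (fun s => c * s) c s
        simpa using (hasDerivAt_id s).const_mul c
    · apply HasDerivAt.hasDerivWithinAt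
      fin_cases j
      · show HasDerivAt (fun s => u s + x1 s * w / 2)
          (-((v s - x0 s * w / 2 + x0 s * w / 2) * w / 2)) s
        rw [e1]
        refine ((du s).add (((d1 s).mul_const w).div_const 2)).congr_deriv ?_
        ring
      · show HasDerivAt (fun s => v s - x0 s * w / 2)
          (- -((u s + x1 s * w / 2 - x1 s * w / 2) * w / 2)) s
        rw [e0]
        refine ((dv s).sub (((d0 s).mul_const w).div_const 2)).congr_deriv ?_
        ring
      · show HasDerivAt (fun _ => w) (-0) s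
        rw [neg_zero]; exact hasDerivAt_const _ _
      · show HasDerivAt (fun _ => c) (-0) s
        rw [neg_zero]; exact hasDerivAt_const _ _
  · ext j
    fin_cases j <;> simp [hx0, hx1, hx2]
  · ext j
    fin_cases j <;> simp [hx0, hx1, hu, hv, ha, hb, hwdef, hc]
  · ext j
    fin_cases j <;> simp [hx0, hx1, hx2, E, ha, hb, hwdef, hc]

lemma const_of_deriv {f : ℝ → ℝ} (hf : ∀ s ∈ Icc (0 : ℝ) 1, HasDerivWithinAt f 0 (Icc 0 1) s) :
    ∀ s ∈ Icc (0 : ℝ) 1, f s = f 0 := by
  apply constant_of_derivWithin_zero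
  · exact fun s hs => (hf s hs).differentiableWithinAt
  · intro s hs
    exact (hf s ⟨hs.1, hs.2.le⟩).derivWithin (uniqueDiffOn_Icc (by norm_num) s ⟨hs.1, hs.2.le⟩)

lemma unique_E {l y : Fin 4 → ℝ} (hw : l 2 ≠ 0) (h : IsExp XX 0 l y) : y = E l := by
  obtain ⟨x, p, hH, hx0, hp0, hy⟩ := h
  set a := l 0 with ha
  set b := l 1 with hb
  set w := l 2 with hwdef
  set c := l 3 with hc
  have h1 : (1 : ℝ) ∈ Icc (0 : ℝ) 1 := ⟨zero_le_one, le_refl _⟩
  -- constant momenta
  have hp2 : ∀ s ∈ Icc (0 : ℝ) 1, p s 2 = w := by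
    intro s hs
    have := const_of_deriv (f := fun s => p s 2) (fun s hs => by
      have := (hH s hs 2).2
      rw [dHx] at this
      simpa using this) s hs
    rw [this, hp0]
  have hp3 : ∀ s ∈ Icc (0 : ℝ) 1, p s 3 = c := by
    intro s hs
    have := const_of_deriv (f := fun s => p s 3) (fun s hs => by
      have := (hH s hs 3).2
      rw [dHx] at this
      simpa using this) s hs
    rw [this, hp0]
  set u : ℝ → ℝ := fun s => p s 0 - x s 1 * w / 2 with hu
  set v : ℝ → ℝ := fun s => p s 1 + x s 0 * w / 2 with hv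
  have dx0 : ∀ s ∈ Icc (0 : ℝ) 1, HasDerivWithinAt (fun s => x s 0) (u s) (Icc 0 1) s := by
    intro s hs
    have := (hH s hs 0).1
    rw [dHp] at this
    simpa [hp2 s hs, hu] using this
  have dx1 : ∀ s ∈ Icc (0 : ℝ) 1, HasDerivWithinAt (fun s => x s 1) (v s) (Icc 0 1) s := by
    intro s hs
    have := (hH s hs 1).1
    rw [dHp] at this
    simpa [hp2 s hs, hv] using this
  have dx2 : ∀ s ∈ Icc (0 : ℝ) 1, HasDerivWithinAt (fun s => x s 2)
      ((x s 0 * v s - x s 1 * u s) / 2) (Icc 0 1) s := by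
    intro s hs
    have := (hH s hs 2).1
    rw [dHp] at this
    simpa [hp2 s hs, hv, hu] using this
  have dx3 : ∀ s ∈ Icc (0 : ℝ) 1, HasDerivWithinAt (fun s => x s 3) c (Icc 0 1) s := by
    intro s hs
    have := (hH s hs 3).1
    rw [dHp] at this
    simpa [hp3 s hs] using this
  have du : ∀ s ∈ Icc (0 : ℝ) 1, HasDerivWithinAt u (- (w * v s)) (Icc 0 1) s := by
    intro s hs
    have h2 := (hH s hs 0).2
    rw [dHx] at h2
    simp only [hp2 s hs, Matrix.cons_val_zero] at h2
    refine (h2.sub (((dx1 s hs).mul_const w).div_const 2)).congr_deriv ?_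
    simp only [hv]
    ring
  have dv : ∀ s ∈ Icc (0 : ℝ) 1, HasDerivWithinAt v (w * u s) (Icc 0 1) s := by
    intro s hs
    have h2 := (hH s hs 1).2
    rw [dHx] at h2
    simp only [hp2 s hs, Matrix.cons_val_one, Matrix.cons_val_zero] at h2
    refine (h2.add (((dx0 s hs).mul_const w).div_const 2)).congr_deriv ?_
    simp only [hu]
    ring
  have hx00 : x 0 0 = 0 := by rw [hx0]; rfl
  have hx01 : x 0 1 = 0 := by rw [hx0]; rfl
  have hx02 : x 0 2 = 0 := by rw [hx0]; rfl
  have hx03 : x 0 3 = 0 := by rw [hx0]; rfl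
  have hu0 : u 0 = a := by simp only [hu, hx01, hp0]; ring
  have hv0 : v 0 = b := by simp only [hv, hx00, hp0]; ring
  -- rotated velocities
  have hU : ∀ s ∈ Icc (0 : ℝ) 1, u s * Real.cos (w * s) + v s * Real.sin (w * s) = a := by
    intro s hs
    have := const_of_deriv (f := fun s => u s * Real.cos (w * s) + v s * Real.sin (w * s))
      (fun s hs => by
        refine (((du s hs).mul (dcos w s).hasDerivWithinAt).add
          ((dv s hs).mul (dsin w s).hasDerivWithinAt)).congr_deriv ?_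
        ring) s hs
    rw [this, hu0, hv0]
    simp
  have hV : ∀ s ∈ Icc (0 : ℝ) 1, v s * Real.cos (w * s) - u s * Real.sin (w * s) = b := by
    intro s hs
    have := const_of_deriv (f := fun s => v s * Real.cos (w * s) - u s * Real.sin (w * s))
      (fun s hs => by
        refine (((dv s hs).mul (dcos w s).hasDerivWithinAt).sub
          ((du s hs).mul (dsin w s).hasDerivWithinAt)).congr_deriv ?_
        ring) s hs
    rw [this, hu0, hv0]
    simp
  have hus : ∀ s ∈ Icc (0 : ℝ) 1, u s = a * Real.cos (w * s) - b * Real.sin (w * s) := by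
    intro s hs
    have hcs := Real.sin_sq_add_cos_sq (w * s)
    linear_combination Real.cos (w * s) * hU s hs - Real.sin (w * s) * hV s hs - u s * hcs
  have hvs : ∀ s ∈ Icc (0 : ℝ) 1, v s = a * Real.sin (w * s) + b * Real.cos (w * s) := by
    intro s hs
    have hcs := Real.sin_sq_add_cos_sq (w * s)
    linear_combination Real.sin (w * s) * hU s hs + Real.cos (w * s) * hV s hs - v s * hcs
  have hR : ∀ s ∈ Icc (0 : ℝ) 1, u s ^ 2 + v s ^ 2 = a ^ 2 + b ^ 2 := by
    intro s hs
    have hcs := Real.sin_sq_add_cos_sq (w * s)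
    rw [hus s hs, hvs s hs]
    linear_combination (a ^ 2 + b ^ 2) * hcs
  have hX0 : ∀ s ∈ Icc (0 : ℝ) 1, x s 0 = v s / w - b / w := by
    intro s hs
    have := const_of_deriv (f := fun s => x s 0 - v s / w)
      (fun s hs => by
        refine ((dx0 s hs).sub ((dv s hs).div_const w)).congr_deriv ?_
        field_simp
        ring) s hs
    simp only [hx00, hv0] at this
    linear_combination this
  have hX1 : ∀ s ∈ Icc (0 : ℝ) 1, x s 1 = - u s / w + a / w := by
    intro s hs
    have := const_of_deriv (f := fun s => x s 1 + u s / w)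
      (fun s hs => by
        refine ((dx1 s hs).add ((du s hs).div_const w)).congr_deriv ?_
        field_simp
        ring) s hs
    simp only [hx01, hu0] at this
    linear_combination this
  have hX2 : x 1 2 = ((a ^ 2 + b ^ 2) / w - b / w * x 1 1 - a / w * x 1 0) / 2 := by
    have := const_of_deriv (f := fun s => x s 2 -
      ((a ^ 2 + b ^ 2) / w * s - b / w * x s 1 - a / w * x s 0) / 2)
      (fun s hs => by
        have hid : HasDerivWithinAt (fun s : ℝ => (a ^ 2 + b ^ 2) / w * s)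
            ((a ^ 2 + b ^ 2) / w) (Icc 0 1) s := by
          have := ((hasDerivAt_id s).const_mul ((a ^ 2 + b ^ 2) / w)).hasDerivWithinAt
            (s := Icc (0 : ℝ) 1)
          simpa using this
        refine ((dx2 s hs).sub (((hid.sub ((dx1 s hs).const_mul (b / w))).sub
          ((dx0 s hs).const_mul (a / w))).div_const 2)).congr_deriv ?_
        have h3 := hR s hs
        rw [hX0 s hs, hX1 s hs]
        field_simp
        linear_combination h3) 1 h1
    simp only [hx00, hx01, hx02] at this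
    linear_combination this
  have hX3 : x 1 3 = c := by
    have := const_of_deriv (f := fun s => x s 3 - c * s)
      (fun s hs => by
        have hid : HasDerivWithinAt (fun s : ℝ => c * s) c (Icc 0 1) s := by
          have := ((hasDerivAt_id s).const_mul c).hasDerivWithinAt (s := Icc (0 : ℝ) 1)
          simpa using this
        refine ((dx3 s hs).sub hid).congr_deriv ?_
        ring) 1 h1
    simp only [hx03] at this
    linear_combination this
  have e0 : x 1 0 = (a * Real.sin w - b * (1 - Real.cos w)) / w := by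
    rw [hX0 1 h1, hvs 1 h1, mul_one]
    field_simp
    ring
  have e1 : x 1 1 = (a * (1 - Real.cos w) + b * Real.sin w) / w := by
    rw [hX1 1 h1, hus 1 h1, mul_one]
    field_simp
    ring
  rw [← hy]
  ext j
  fin_cases j
  · simpa [E] using e0
  · simpa [E] using e1
  · show x 1 2 = (a ^ 2 + b ^ 2) * (w - Real.sin w) / (2 * w ^ 2)
    rw [hX2, e0, e1]
    field_simp
    ring
  · simpa [E] using hX3

lemma expMap_eq {l : Fin 4 → ℝ} (hw : l 2 ≠ 0) : expMap XX 0 l = E l := by
  have h : ∃ y, IsExp XX 0 l y := ⟨_, isExp_E hw⟩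
  unfold expMap
  rw [dif_pos h]
  exact unique_E hw h.choose_spec

/-! ### Critical points -/

lemma diff_E {l : Fin 4 → ℝ} (hw : l 2 ≠ 0) : DifferentiableAt ℝ E l := by
  rw [differentiableAt_pi]
  have h2 : 2 * l 2 ^ 2 ≠ 0 := by positivity
  intro j
  fin_cases j
  · show DifferentiableAt ℝ
      (fun l : Fin 4 → ℝ => (l 0 * Real.sin (l 2) - l 1 * (1 - Real.cos (l 2))) / l 2) l
    fun_prop (disch := assumption)
  · show DifferentiableAt ℝ
      (fun l : Fin 4 → ℝ => (l 0 * (1 - Real.cos (l 2)) + l 1 * Real.sin (l 2)) / l 2) l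
    fun_prop (disch := assumption)
  · show DifferentiableAt ℝ
      (fun l : Fin 4 → ℝ => (l 0 ^ 2 + l 1 ^ 2) * (l 2 - Real.sin (l 2)) / (2 * l 2 ^ 2)) l
    fun_prop (disch := assumption)
  · show DifferentiableAt ℝ (fun l : Fin 4 → ℝ => l 3) l
    fun_prop

lemma diff_at {l : Fin 4 → ℝ} (hw : l 2 ≠ 0) : DifferentiableAt ℝ (expMap XX 0) l := by
  have hev : ∀ᶠ m in 𝓝 l, expMap XX 0 m = E m := by
    have : ∀ᶠ m : Fin 4 → ℝ in 𝓝 l, m 2 ≠ 0 :=
      (continuous_apply 2).continuousAt.eventually_ne hw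
    filter_upwards [this] with m hm
    exact expMap_eq hm
  exact (diff_E hw).congr_of_eventuallyEq hev

/-- The directional derivatives of the exponential map. -/
lemma dE {l : Fin 4 → ℝ} (hw : l 2 ≠ 0) (e : Fin 4 → ℝ) :
    fderiv ℝ (expMap XX 0) l e =
    ![((e 0 * Real.sin (l 2) + l 0 * (e 2 * Real.cos (l 2)) - e 1 * (1 - Real.cos (l 2)) -
          l 1 * (e 2 * Real.sin (l 2))) * l 2 -
        (l 0 * Real.sin (l 2) - l 1 * (1 - Real.cos (l 2))) * e 2) / l 2 ^ 2,
      ((e 0 * (1 - Real.cos (l 2)) + l 0 * (e 2 * Real.sin (l 2)) + e 1 * Real.sin (l 2) +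
          l 1 * (e 2 * Real.cos (l 2))) * l 2 -
        (l 0 * (1 - Real.cos (l 2)) + l 1 * Real.sin (l 2)) * e 2) / l 2 ^ 2,
      (((2 * l 0 * e 0 + 2 * l 1 * e 1) * (l 2 - Real.sin (l 2)) +
          (l 0 ^ 2 + l 1 ^ 2) * (e 2 - e 2 * Real.cos (l 2))) * (2 * l 2 ^ 2) -
        (l 0 ^ 2 + l 1 ^ 2) * (l 2 - Real.sin (l 2)) * (4 * l 2 * e 2)) / (2 * l 2 ^ 2) ^ 2,
      e 3] := by
  apply fderiv_eq (diff_at hw)
  have hev : ∀ᶠ s : ℝ in 𝓝 0, expMap XX 0 (l + s • e) = E (l + s • e) := by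
    have hc : ContinuousAt (fun s : ℝ => (l + s • e) 2) 0 := by
      apply Continuous.continuousAt
      simp only [Pi.add_apply, Pi.smul_apply, smul_eq_mul]
      fun_prop
    have : ∀ᶠ s : ℝ in 𝓝 0, (l + s • e) 2 ≠ 0 := hc.eventually_ne (by simpa using hw)
    filter_upwards [this] with s hs
    exact expMap_eq hs
  refine HasDerivAt.congr_of_eventuallyEq ?_ hev
  have hl : ∀ j, HasDerivAt (fun s : ℝ => l j + s * e j) (e j) 0 := by
    intro j
    have := ((hasDerivAt_id (0 : ℝ)).mul_const (e j)).const_add (l j)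
    simpa using this
  have hs := (hl 2).sin
  have hc := (hl 2).cos
  rw [hasDerivAt_pi]
  intro j
  have hw' : l 2 + (0 : ℝ) * e 2 ≠ 0 := by simpa using hw
  have hw2 : 2 * (l 2 + (0 : ℝ) * e 2) ^ 2 ≠ 0 := by positivity
  fin_cases j
  · show HasDerivAt (fun s : ℝ => ((l 0 + s * e 0) * Real.sin (l 2 + s * e 2) - (l 1 + s * e 1) *
      (1 - Real.cos (l 2 + s * e 2))) / (l 2 + s * e 2))
      (((e 0 * Real.sin (l 2) + l 0 * (e 2 * Real.cos (l 2)) - e 1 * (1 - Real.cos (l 2)) -
          l 1 * (e 2 * Real.sin (l 2))) * l 2 -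
        (l 0 * Real.sin (l 2) - l 1 * (1 - Real.cos (l 2))) * e 2) / l 2 ^ 2) 0
    refine (((((hl 0).mul hs).sub ((hl 1).mul (hc.const_sub 1))).div (hl 2) hw')).congr_deriv ?_
    simp only [Pi.sub_apply, Pi.mul_apply, zero_mul, add_zero]
    ring
  · show HasDerivAt (fun s : ℝ => ((l 0 + s * e 0) * (1 - Real.cos (l 2 + s * e 2)) +
      (l 1 + s * e 1) * Real.sin (l 2 + s * e 2)) / (l 2 + s * e 2))
      (((e 0 * (1 - Real.cos (l 2)) + l 0 * (e 2 * Real.sin (l 2)) + e 1 * Real.sin (l 2) +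
          l 1 * (e 2 * Real.cos (l 2))) * l 2 -
        (l 0 * (1 - Real.cos (l 2)) + l 1 * Real.sin (l 2)) * e 2) / l 2 ^ 2) 0
    refine (((((hl 0).mul (hc.const_sub 1)).add ((hl 1).mul hs)).div (hl 2) hw')).congr_deriv ?_
    simp only [Pi.add_apply, Pi.mul_apply, zero_mul, add_zero]
    ring
  · show HasDerivAt (fun s : ℝ => ((l 0 + s * e 0) ^ 2 + (l 1 + s * e 1) ^ 2) *
      ((l 2 + s * e 2) - Real.sin (l 2 + s * e 2)) / (2 * (l 2 + s * e 2) ^ 2))
      ((((2 * l 0 * e 0 + 2 * l 1 * e 1) * (l 2 - Real.sin (l 2)) +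
          (l 0 ^ 2 + l 1 ^ 2) * (e 2 - e 2 * Real.cos (l 2))) * (2 * l 2 ^ 2) -
        (l 0 ^ 2 + l 1 ^ 2) * (l 2 - Real.sin (l 2)) * (4 * l 2 * e 2)) / (2 * l 2 ^ 2) ^ 2) 0
    refine ((((((hl 0).pow 2).add ((hl 1).pow 2)).mul ((hl 2).sub hs)).div
      (((hl 2).pow 2).const_mul 2) hw2)).congr_deriv ?_
    simp only [Pi.add_apply, Pi.pow_apply, Pi.mul_apply, Pi.sub_apply, zero_mul, add_zero]
    push_cast
    ring
  · exact hl 3

/-- Not bijective at the points with vanishing first two momenta. -/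
lemma crit {l : Fin 4 → ℝ} (hw : l 2 ≠ 0) (h0 : l 0 = 0) (h1 : l 1 = 0) :
    ¬ Function.Bijective (fderiv ℝ (expMap XX 0) l) := by
  intro h
  have h2 : fderiv ℝ (expMap XX 0) l (Pi.single 2 1) = fderiv ℝ (expMap XX 0) l 0 := by
    rw [dE hw, map_zero]
    ext j
    fin_cases j <;> simp [h0, h1]
  have h3 := h.1 h2
  have := congrFun h3 2
  simp at this

lemma pos_aux {w : ℝ} (hw : 0 < w) (hw2 : w < Real.pi) :
    0 < 2 - 2 * Real.cos w - w * Real.sin w := by
  have h1 : Real.cos w = 1 - 2 * Real.sin (w / 2) ^ 2 := by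
    have h2 := Real.cos_two_mul (w / 2)
    have h3 := Real.sin_sq_add_cos_sq (w / 2)
    rw [show 2 * (w / 2) = w by ring] at h2
    rw [h2]
    linear_combination 2 * h3
  have h2 : Real.sin w = 2 * Real.sin (w / 2) * Real.cos (w / 2) := by
    have h2 := Real.sin_two_mul (w / 2)
    rw [show 2 * (w / 2) = w by ring] at h2
    exact h2
  have h3 : 0 < Real.sin (w / 2) := Real.sin_pos_of_pos_of_lt_pi (by linarith) (by linarith)
  have h4 : 0 < Real.cos (w / 2) := Real.cos_pos_of_mem_Ioo ⟨by linarith, by linarith⟩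
  have h5 : w / 2 < Real.tan (w / 2) := Real.lt_tan (by linarith) (by linarith)
  rw [Real.tan_eq_sin_div_cos, lt_div_iff₀ h4] at h5
  have h6 : 2 - 2 * Real.cos w - w * Real.sin w =
      4 * Real.sin (w / 2) * (Real.sin (w / 2) - w / 2 * Real.cos (w / 2)) := by
    rw [h1, h2]; ring
  rw [h6]
  apply mul_pos (by positivity)
  linarith

/-- Bijective elsewhere, for third momentum between `0` and `π`. -/
lemma noncrit {l : Fin 4 → ℝ} (hw : 0 < l 2) (hw2 : l 2 < Real.pi) (h01 : ¬ (l 0 = 0 ∧ l 1 = 0)) :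
    Function.Bijective (fderiv ℝ (expMap XX 0) l) := by
  have hinj : Function.Injective (fderiv ℝ (expMap XX 0) l : (Fin 4 → ℝ) →ₗ[ℝ] (Fin 4 → ℝ)) := by
    rw [injective_iff_map_eq_zero]
    intro e he
    have he' : fderiv ℝ (expMap XX 0) l e = 0 := he
    rw [dE hw.ne'] at he'
    have q0 := congrFun he' 0
    have q1 := congrFun he' 1
    have q2 := congrFun he' 2
    have q3 := congrFun he' 3
    simp only [Matrix.cons_val_zero, Matrix.cons_val_one, Matrix.cons_val, Pi.zero_apply] at q0 q1 q2 q3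
    have hw4 : (2 * l 2 ^ 2) ^ 2 ≠ 0 := by positivity
    have hw1 : l 2 ^ 2 ≠ 0 := by positivity
    rw [div_eq_zero_iff, or_iff_left hw1] at q0 q1
    rw [div_eq_zero_iff, or_iff_left hw4] at q2
    set a := l 0
    set b := l 1
    set w := l 2
    set S := Real.sin w
    set c := Real.cos w
    have hcs : S ^ 2 + c ^ 2 = 1 := Real.sin_sq_add_cos_sq w
    have hpos : 0 < 2 - 2 * c - w * S := pos_aux hw hw2
    have hR : 0 < a ^ 2 + b ^ 2 := by
      by_contra hcon
      push Not at hcon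
      apply h01
      constructor
      · nlinarith [sq_nonneg a, sq_nonneg b]
      · nlinarith [sq_nonneg a, sq_nonneg b]
    have hc1 : 0 < 1 - c := by
      have h1 : c ≤ 1 := Real.cos_le_one w
      have h2 : c ≠ 1 := by
        intro h3
        have hS : S = 0 := by nlinarith [sq_nonneg S]
        rw [h3, hS] at hpos
        norm_num at hpos
      exact sub_pos.2 (lt_of_le_of_ne h1 h2)
    have star : w * (a * e 0 + b * e 1) * (2 * (1 - c)) =
        e 2 * (a ^ 2 + b ^ 2) * (2 * (1 - c) - w * S) := by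
      linear_combination (a * S - b * (1 - c)) * q0 + (a * (1 - c) + b * S) * q1 +
        (- w * (a * e 0 + b * e 1) + e 2 * (a ^ 2 + b ^ 2)) * hcs
    have e2 : e 2 = 0 := by
      have h1 : (2 * (a ^ 2 + b ^ 2) * w ^ 2 * (2 - 2 * c - w * S)) * e 2 * (2 * w) = 0 := by
        linear_combination (2 * (1 - c)) * w * q2 -
          4 * w ^ 2 * (w - S) * star - 4 * (a ^ 2 + b ^ 2) * w ^ 3 * e 2 * hcs
      have h2 : 2 * (a ^ 2 + b ^ 2) * w ^ 2 * (2 - 2 * c - w * S) ≠ 0 := by positivity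
      rcases mul_eq_zero.1 h1 with h3 | h3
      · exact (mul_eq_zero.1 h3).resolve_left h2
      · exact absurd h3 (by positivity)
    rw [e2] at q0 q1
    have e0 : e 0 = 0 := by
      have h1 : (2 * (1 - c) * w) * e 0 = 0 := by
        linear_combination S * q0 + (1 - c) * q1 - (e 0 * w) * hcs
      exact (mul_eq_zero.1 h1).resolve_left (by positivity)
    have e1 : e 1 = 0 := by
      have h1 : (2 * (1 - c) * w) * e 1 = 0 := by
        linear_combination - (1 - c) * q0 + S * q1 - (e 1 * w) * hcs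
      exact (mul_eq_zero.1 h1).resolve_left (by positivity)
    ext j
    fin_cases j
    · exact e0
    · exact e1
    · exact e2
    · exact q3
  exact ⟨hinj, (LinearMap.injective_iff_surjective).1 hinj⟩

lemma mem_Conj {l : Fin 4 → ℝ} (h0 : l 0 = 0) (h1 : l 1 = 0) (h2 : l 2 ≠ 0) (h3 : l 3 ≠ 0) :
    l ∈ Conj XX 0 := by
  refine ⟨⟨_, isExp_E h2⟩, ?_, crit h2 h0 h1⟩
  rw [Ham_eq]
  have : 0 < l 3 ^ 2 := by positivity
  simp only [h0, h1, Pi.zero_apply]
  intro h
  norm_num at h
  exact h3 h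

/-- There is a sub-Riemannian structure (on `ℝ⁴`) and a point `q` with nonempty conjugate locus for
which the regular conjugate locus is not dense in the conjugate locus. -/
theorem result : ∃ (n k : ℕ) (X : Fin k → (Fin n → ℝ) → (Fin n → ℝ)) (q : Fin n → ℝ),
    IsSubRiemannianFrame X ∧ (Conj X q).Nonempty ∧ ¬ (Conj X q ⊆ closure (Regular X q)) := by
  refine ⟨4, 3, XX, 0, frame_XX, ?_, ?_⟩
  · exact ⟨![0, 0, 1, 1], mem_Conj (by simp) (by simp) (by simp) (by simp)⟩
  · intro h
    have h0 : (![0, 0, 1, 1] : Fin 4 → ℝ) ∈ closure (Regular XX 0) :=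
      h (mem_Conj (by simp) (by simp) (by simp) (by simp))
    have hW : {l : Fin 4 → ℝ | 0 < l 2 ∧ l 2 < 3 ∧ 0 < l 3} ∈ 𝓝 (![0, 0, 1, 1] : Fin 4 → ℝ) := by
      apply IsOpen.mem_nhds
      · apply IsOpen.inter (isOpen_lt continuous_const (continuous_apply 2))
        exact IsOpen.inter (isOpen_lt (continuous_apply 2) continuous_const)
          (isOpen_lt continuous_const (continuous_apply 3))
      · simp
    obtain ⟨m, ⟨hm1, hm2, hm3⟩, hmR⟩ := mem_closure_iff_nhds.1 h0 _ hW
    obtain ⟨hmC, U, hU, hsub⟩ := hmR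
    have hm01 : m 0 = 0 ∧ m 1 = 0 := by
      by_contra hcon
      exact hmC.2.2 (noncrit hm1 (hm2.trans (by linarith [Real.pi_gt_three])) hcon)
    have hmne : m ≠ 0 := by
      intro h1
      rw [h1] at hm1
      simp at hm1
    have hcont : Tendsto (fun s : ℝ => s • m) (𝓝 1) (𝓝 m) := by
      have : Continuous (fun s : ℝ => s • m) := by fun_prop
      simpa using this.tendsto 1
    have hev1 : ∀ᶠ s in 𝓝 (1 : ℝ), s • m ∈ U := hcont hU
    have hev : ∀ᶠ s in 𝓝[≠] (1 : ℝ), s • m ∈ U ∧ 0 < s :=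
      (hev1.and (lt_mem_nhds zero_lt_one)).filter_mono nhdsWithin_le_nhds
    obtain ⟨s, ⟨hsU, hs0⟩, hs1⟩ := (hev.and self_mem_nhdsWithin).exists
    have hs1' : s ≠ 1 := hs1
    have hsC : s • m ∈ Conj XX 0 := by
      apply mem_Conj
      · simp [hm01.1]
      · simp [hm01.2]
      · simp [hs0.ne', hm1.ne']
      · simp [hs0.ne', hm3.ne']
    have heq := hsub m hmne ⟨⟨hsC, hsU⟩, s, rfl⟩ ⟨⟨hmC, mem_of_mem_nhds hU⟩, 1, by simp⟩
    have := congrFun heq 2
    simp only [Pi.smul_apply, smul_eq_mul] at this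
    have h5 : (s - 1) * m 2 = 0 := by linear_combination this
    rcases mul_eq_zero.1 h5 with h6 | h6
    · exact hs1' (sub_eq_zero.1 h6)
    · exact hm1.ne' h6

end Pool.Agent.Results.MP_f98bae_gt.NotDense
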